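import Pool.Agent.W550.LG.StmV

/-!
Project LG (helper550), part T3: the third iterate of the operator is small compared with the
second one.
-/

set_option autoImplicit false

namespace Pool.Agent.W249.LG

open Set Pool.Agent.W550.LG

noncomputable section

/-- the primitive -/
def J (al : ℝ) (g : ℝ → ℝ) (x : ℝ) : ℝ := ∫ y in al..x, g y

lemma J_cont (al : ℝ) {g : ℝ → ℝ} (hg : Continuous g) : Continuous (J al g) :=
  intervalIntegral.continuous_primitive (fun a b => hg.intervalIntegrable a b) al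

lemma J_mono {al x : ℝ} (hx : al ≤ x) {f g : ℝ → ℝ} (hf : Continuous f) (hg : Continuous g)
    (h : ∀ y ∈ Icc al x, f y ≤ g y) : J al f x ≤ J al g x :=
  intervalIntegral.integral_mono_on hx (hf.intervalIntegrable _ _) (hg.intervalIntegrable _ _) h

lemma J_nonneg {al x : ℝ} (hx : al ≤ x) {g : ℝ → ℝ} (h : ∀ y ∈ Icc al x, 0 ≤ g y) :
    0 ≤ J al g x :=
  intervalIntegral.integral_nonneg hx h

lemma J_incr {al x y : ℝ} (hx : al ≤ x) (hxy : x ≤ y) {g : ℝ → ℝ} (hg : Continuous g)
    (h : ∀ z, al ≤ z → z ≤ y → 0 ≤ g z) : J al g x ≤ J al g y := by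
  have h1 : J al g y - J al g x = ∫ z in x..y, g z :=
    intervalIntegral.integral_interval_sub_left (hg.intervalIntegrable _ _)
      (hg.intervalIntegrable _ _)
  have h2 : 0 ≤ ∫ z in x..y, g z :=
    intervalIntegral.integral_nonneg hxy fun z hz => h z (hx.trans hz.1) hz.2
  linarith

lemma J_const_mul (al x c : ℝ) (g : ℝ → ℝ) : J al (fun y => c * g y) x = c * J al g x :=
  intervalIntegral.integral_const_mul c g

lemma J_add (al x : ℝ) {f g : ℝ → ℝ} (hf : Continuous f) (hg : Continuous g) :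
    J al (fun y => f y + g y) x = J al f x + J al g x :=
  intervalIntegral.integral_add (hf.intervalIntegrable _ _) (hg.intervalIntegrable _ _)

lemma J_lin2 (al x a b : ℝ) {f g : ℝ → ℝ} (hf : Continuous f) (hg : Continuous g) :
    J al (fun y => a * f y + b * g y) x = a * J al f x + b * J al g x := by
  have h := J_add al x (f := fun y => a * f y) (g := fun y => b * g y)
    (continuous_const.mul hf) (continuous_const.mul hg)
  rw [J_const_mul, J_const_mul] at h
  exact h

lemma J_lin3 (al x a b c : ℝ) {f g k : ℝ → ℝ} (hf : Continuous f) (hg : Continuous g)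
    (hk : Continuous k) :
    J al (fun y => a * f y + (b * g y + c * k y)) x =
      a * J al f x + (b * J al g x + c * J al k x) := by
  have h := J_add al x (f := fun y => a * f y) (g := fun y => b * g y + c * k y)
    (continuous_const.mul hf) ((continuous_const.mul hg).add (continuous_const.mul hk))
  rw [J_const_mul, J_lin2 al x b c hg hk] at h
  exact h

/-- The second primitive of a monotone function. -/
lemma JJ_le {al om x : ℝ} (hx : al ≤ x) (hxo : x ≤ om) {w : ℝ → ℝ} (hw : Continuous w)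
    (hm : ∀ y z, al ≤ y → y ≤ z → z ≤ om → w y ≤ w z) (h0 : ∀ y, al ≤ y → y ≤ om → 0 ≤ w y) :
    J al (J al w) x ≤ (om - al) ^ 2 / 2 * w x := by
  have h1 : ∀ y ∈ Icc al x, J al w y ≤ w x * (y - al) := by
    intro y hy
    have h2 : J al w y ≤ J al (fun _ => w x) y :=
      J_mono hy.1 hw continuous_const fun z hz => hm z x hz.1 (hz.2.trans hy.2) hxo
    have h3 : J al (fun _ => w x) y = w x * (y - al) := by
      unfold J
      rw [intervalIntegral.integral_const, smul_eq_mul, mul_comm]
    linarith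
  have h4 : J al (J al w) x ≤ J al (fun y => w x * (y - al)) x :=
    J_mono hx (J_cont al hw) (by fun_prop) h1
  have h5 : J al (fun y => w x * (y - al)) x = w x * ((x - al) ^ 2 / 2) := by
    rw [J_const_mul]
    congr 1
    unfold J
    rw [intervalIntegral.integral_comp_sub_right (fun y => y) al, sub_self, integral_id]
    ring
  have h6 : (x - al) ^ 2 ≤ (om - al) ^ 2 := by
    apply pow_le_pow_left₀ (by linarith)
    linarith
  have h7 := h0 x hx hxo
  nlinarith [mul_le_mul_of_nonneg_left h6 h7]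

/-- The pointwise estimate. -/
lemma pt {L : ℝ → ℝ} {h d al b a2 om : ℝ} (H : Trip L h d al b a2 om)
    {p q u v : ℝ} (hp : al ≤ p) (hpq : p ≤ q) (hqu : q ≤ u) (huv : u ≤ v) (hv : v ≤ om) :
    Real.exp (-L v) * Real.exp (L u) * Real.exp (-L q) * Real.exp (L p) ≤
      Real.exp d * (Real.exp (-L v) * Real.exp (L u) + Real.exp (-L v) * Real.exp (L p) +
        Real.exp (-L q) * Real.exp (L p)) := by
  have key : L p - L q ≤ d ∨ L u - L q ≤ d ∨ L u - L v ≤ d := by
    by_contra hcon
    push Not at hcon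
    obtain ⟨hA, hB, hC⟩ := hcon
    have h1 : b < q := by
      by_contra hq
      have := H.near1 p q hp hpq (not_lt.mp hq)
      linarith
    have h2 : u < a2 := by
      by_contra hq
      have := H.near3 u v (not_lt.mp hq) huv hv
      linarith
    have h3 := H.near2 q u h1.le hqu h2.le
    linarith
  simp only [← Real.exp_add, mul_add]
  have e1 := Real.exp_pos (d + (-L v + L u))
  have e2 := Real.exp_pos (d + (-L v + L p))
  have e3 := Real.exp_pos (d + (-L q + L p))
  rcases key with hk | hk | hk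
  · have : Real.exp (-L v + L u + -L q + L p) ≤ Real.exp (d + (-L v + L u)) :=
      Real.exp_le_exp.mpr (by linarith)
    linarith
  · have : Real.exp (-L v + L u + -L q + L p) ≤ Real.exp (d + (-L v + L p)) :=
      Real.exp_le_exp.mpr (by linarith)
    linarith
  · have : Real.exp (-L v + L u + -L q + L p) ≤ Real.exp (d + (-L q + L p)) :=
      Real.exp_le_exp.mpr (by linarith)
    linarith

lemma T_eq (L : ℝ → ℝ) (al : ℝ) (f : ℝ → ℝ) :
    T L al f = J al (fun σ => Real.exp (L σ) * J al (fun r => Real.exp (-L r) * f r) σ) := by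
  funext s
  unfold T
  change _ = ∫ σ in al..s, Real.exp (L σ) * J al (fun r => Real.exp (-L r) * f r) σ
  congr 1
  funext σ
  rw [← J_const_mul]
  unfold J
  congr 1
  funext r
  change _ = Real.exp (L σ) * (Real.exp (-L r) * f r)
  rw [← mul_assoc, ← Real.exp_add, sub_eq_add_neg]

/-- the estimate for abstract functions -/
lemma core {E N : ℝ → ℝ} (cE : Continuous E) (cN : Continuous N) (pE : ∀ x, 0 < E x)
    (pN : ∀ x, 0 < N x) {K al om : ℝ} (pK : 0 < K)
    (hpt : ∀ p q u v, al ≤ p → p ≤ q → q ≤ u → u ≤ v → v ≤ om →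
      N v * E u * N q * E p ≤ K * (N v * E u + N v * E p + N q * E p))
    {w w1 w2 w3 w4 : ℝ → ℝ} (hw : w = J al N) (hw1 : w1 = J al (fun x => E x * w x))
    (hw2 : w2 = J al (fun x => N x * w1 x)) (hw3 : w3 = J al (fun x => E x * w2 x))
    (hw4 : w4 = J al (fun x => N x * w3 x)) {s : ℝ} (hs : s ∈ Icc al om) :
    J al (fun x => E x * w4 x) s ≤ 3 * K * ((om - al) ^ 2 / 2) * w3 s := by
  have cw : Continuous w := hw ▸ J_cont al cN
  have pw : ∀ x, al ≤ x → 0 ≤ w x := fun x hx => by
    rw [hw]; exact J_nonneg hx fun y _ => (pN y).le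
  have cEw : Continuous fun x => E x * w x := cE.mul cw
  have cw1 : Continuous w1 := hw1 ▸ J_cont al cEw
  have pEw : ∀ x, al ≤ x → 0 ≤ E x * w x := fun x hx => mul_nonneg (pE x).le (pw x hx)
  have pw1 : ∀ x, al ≤ x → 0 ≤ w1 x := fun x hx => by
    rw [hw1]; exact J_nonneg hx fun y hy => pEw y hy.1
  have cNw1 : Continuous fun x => N x * w1 x := cN.mul cw1
  have cw2 : Continuous w2 := hw2 ▸ J_cont al cNw1
  have pNw1 : ∀ x, al ≤ x → 0 ≤ N x * w1 x := fun x hx => mul_nonneg (pN x).le (pw1 x hx)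
  have pw2 : ∀ x, al ≤ x → 0 ≤ w2 x := fun x hx => by
    rw [hw2]; exact J_nonneg hx fun y hy => pNw1 y hy.1
  have cEw2 : Continuous fun u => E u * w2 u := cE.mul cw2
  have cw3 : Continuous w3 := hw3 ▸ J_cont al cEw2
  have cNw3 : Continuous fun u => N u * w3 u := cN.mul cw3
  have cw4 : Continuous w4 := hw4 ▸ J_cont al cNw3
  obtain ⟨v1, hv1⟩ : ∃ v1, v1 = J al w := ⟨_, rfl⟩
  have cv1 : Continuous v1 := hv1 ▸ J_cont al cw
  obtain ⟨v2, hv2⟩ : ∃ v2, v2 = J al v1 := ⟨_, rfl⟩
  have cv2 : Continuous v2 := hv2 ▸ J_cont al cv1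
  obtain ⟨z1, hz1⟩ : ∃ z1, z1 = J al w1 := ⟨_, rfl⟩
  have cz1 : Continuous z1 := hz1 ▸ J_cont al cw1
  obtain ⟨z2, hz2⟩ : ∃ z2, z2 = J al z1 := ⟨_, rfl⟩
  have cz2 : Continuous z2 := hz2 ▸ J_cont al cz1
  obtain ⟨y1, hy1⟩ : ∃ y1, y1 = J al w2 := ⟨_, rfl⟩
  have cy1 : Continuous y1 := hy1 ▸ J_cont al cw2
  obtain ⟨y2, hy2⟩ : ∃ y2, y2 = J al y1 := ⟨_, rfl⟩
  have cy2 : Continuous y2 := hy2 ▸ J_cont al cy1
  obtain ⟨a3, ha3⟩ : ∃ a3, a3 = J al (fun u => E u * v2 u) := ⟨_, rfl⟩
  have cEv2 : Continuous fun u => E u * v2 u := cE.mul cv2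
  have ca3 : Continuous a3 := ha3 ▸ J_cont al cEv2
  -- level 1
  have l1 : ∀ q u v, al ≤ q → q ≤ u → u ≤ v → v ≤ om →
      (N v * E u * N q) * w1 q ≤
        (K * (N v * E u)) * v1 q + (K * (N v + N q)) * w1 q := by
    intro q u v hq hqu huv hv
    have h1 : J al (fun p => (N v * E u * N q) * (E p * w p)) q ≤
        J al (fun p => (K * (N v * E u)) * w p + (K * (N v + N q)) * (E p * w p)) q := by
      refine J_mono hq (continuous_const.mul cEw)
        ((continuous_const.mul cw).add (continuous_const.mul cEw)) fun p hp => ?_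
      have h2 := hpt p q u v hp.1 hp.2 hqu huv hv
      have h3 := mul_le_mul_of_nonneg_right h2 (pw p hp.1)
      linarith
    rw [J_const_mul, J_lin2 al q _ _ cw cEw, ← hw1, ← hv1] at h1
    exact h1
  -- level 2
  have l2 : ∀ u v, al ≤ u → u ≤ v → v ≤ om →
      (N v * E u) * w2 u ≤ (K * (N v * E u)) * v2 u + ((K * N v) * z1 u + K * w2 u) := by
    intro u v hu huv hv
    have h1 : J al (fun q => (N v * E u) * (N q * w1 q)) u ≤
        J al (fun q => (K * (N v * E u)) * v1 q +
          ((K * N v) * w1 q + K * (N q * w1 q))) u := by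
      refine J_mono hu (continuous_const.mul cNw1) ((continuous_const.mul cv1).add
        ((continuous_const.mul cw1).add (continuous_const.mul cNw1))) fun q hq => ?_
      have h2 := l1 q u v hq.1 hq.2 huv hv
      linarith
    rw [J_const_mul, J_lin3 al u _ _ _ cv1 cw1 cNw1, ← hw2, ← hv2, ← hz1] at h1
    exact h1
  -- level 3
  have l3 : ∀ v, al ≤ v → v ≤ om →
      N v * w3 v ≤ (K * N v) * a3 v + ((K * N v) * z2 v + K * y1 v) := by
    intro v hv hvo
    have h1 : J al (fun u => N v * (E u * w2 u)) v ≤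
        J al (fun u => (K * N v) * (E u * v2 u) + ((K * N v) * z1 u + K * w2 u)) v := by
      refine J_mono hv (continuous_const.mul cEw2) ((continuous_const.mul cEv2).add
        ((continuous_const.mul cz1).add (continuous_const.mul cw2))) fun u hu => ?_
      have h2 := l2 u v hu.1 hu.2 hvo
      linarith
    rw [J_const_mul, J_lin3 al v _ _ _ cEv2 cz1 cw2, ← hw3, ← ha3, ← hz2, ← hy1] at h1
    exact h1
  -- second primitives
  obtain ⟨c, hc⟩ : ∃ c : ℝ, c = (om - al) ^ 2 / 2 := ⟨_, rfl⟩
  have hc0 : 0 ≤ c := by rw [hc]; positivity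
  have m0 : ∀ x, al ≤ x → x ≤ om → v2 x ≤ c * w x := fun x hx hxo => by
    rw [hv2, hv1, hc]
    exact JJ_le hx hxo cw (fun y z hy hyz _ => by
      rw [hw]; exact J_incr hy hyz cN fun t _ _ => (pN t).le) fun y hy _ => pw y hy
  have m1 : ∀ x, al ≤ x → x ≤ om → z2 x ≤ c * w1 x := fun x hx hxo => by
    rw [hz2, hz1, hc]
    exact JJ_le hx hxo cw1 (fun y z hy hyz _ => by
      rw [hw1]; exact J_incr hy hyz cEw fun t ht _ => pEw t ht) fun y hy _ => pw1 y hy
  have m2 : ∀ x, al ≤ x → x ≤ om → y2 x ≤ c * w2 x := fun x hx hxo => by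
    rw [hy2, hy1, hc]
    exact JJ_le hx hxo cw2 (fun y z hy hyz _ => by
      rw [hw2]; exact J_incr hy hyz cNw1 fun t ht _ => pNw1 t ht) fun y hy _ => pw2 y hy
  -- level 4
  have l4 : ∀ x, al ≤ x → x ≤ om → w4 x ≤ 3 * K * c * w2 x := by
    intro x hx hxo
    have h1 : J al (fun v => N v * w3 v) x ≤
        J al (fun v => (2 * K * c) * (N v * w1 v) + K * y1 v) x := by
      refine J_mono hx cNw3 ((continuous_const.mul cNw1).add (continuous_const.mul cy1))
        fun v hv => ?_
      have hvo := hv.2.trans hxo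
      have h2 := l3 v hv.1 hvo
      have h3 : a3 v ≤ c * w1 v := by
        have h4 : J al (fun u => E u * v2 u) v ≤ J al (fun u => c * (E u * w u)) v := by
          refine J_mono hv.1 cEv2 (continuous_const.mul cEw) fun u hu => ?_
          have h5 := mul_le_mul_of_nonneg_left (m0 u hu.1 (hu.2.trans hvo)) (pE u).le
          linarith
        rw [J_const_mul, ← hw1, ← ha3] at h4
        exact h4
      have h6 := m1 v hv.1 hvo
      have h7 := mul_le_mul_of_nonneg_left h3 (mul_nonneg pK.le (pN v).le)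
      have h8 := mul_le_mul_of_nonneg_left h6 (mul_nonneg pK.le (pN v).le)
      linarith
    rw [J_lin2 al x _ _ cNw1 cy1, ← hw4, ← hw2, ← hy2] at h1
    have h9 := mul_le_mul_of_nonneg_left (m2 x hx hxo) pK.le
    linarith
  have h1 : J al (fun x => E x * w4 x) s ≤ J al (fun x => (3 * K * c) * (E x * w2 x)) s := by
    refine J_mono hs.1 (cE.mul cw4) (continuous_const.mul cEw2) fun x hx => ?_
    have h2 := mul_le_mul_of_nonneg_left (l4 x hx.1 (hx.2.trans hs.2)) (pE x).le
    linarith
  rw [J_const_mul, ← hw3, hc] at h1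
  exact h1

theorem T_T3 : Pool.Agent.W550.LG.S_T3 := by
  intro L h d al b a2 om hL hd H s hs
  have t1 : T L al 1 = J al (fun x => Real.exp (L x) * J al (fun y => Real.exp (-L y)) x) := by
    rw [T_eq]
    congr 1
    funext σ
    congr 2
    funext r
    rw [Pi.one_apply, mul_one]
  have h1 := core (E := fun x => Real.exp (L x)) (N := fun x => Real.exp (-L x))
    (Real.continuous_exp.comp hL) (Real.continuous_exp.comp hL.neg)
    (fun x => Real.exp_pos _) (fun x => Real.exp_pos _) (Real.exp_pos d)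
    (fun p q u v hp hpq hqu huv hv => pt H hp hpq hqu huv hv)
    rfl rfl rfl rfl rfl hs
  rw [T_eq L al (T L al (T L al 1)), T_eq L al (T L al 1), t1]
  refine h1.trans (le_of_eq ?_)
  ring

end

end Pool.Agent.W249.LG

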